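import Mathlib
import Pool.Agent.H18.Rec3

open Set Filter Topology Polynomial

namespace Pool.Agent.Results.MP_c19a8f_an.Joint

open Pool.Agent.H18.Rec3 hiding X

/-- Every orbit `{T^n x : n ∈ ℤ}` is dense. -/
def IsMinimal {X : Type} [TopologicalSpace X] (T : X ≃ₜ X) : Prop :=
  ∀ x, Dense (range fun n : ℤ => (T ^ n) x)

lemma sp_mono {A B : Set ℤ} {G : ℕ} (h : A ⊆ B) (hB : Sp B G) : Sp A G :=
  hB.imp fun _ hR a => (hR a).imp fun _ hb => ⟨hb.1, hb.2.1, fun t ht => hb.2.2 t (h ht)⟩

lemma sp_union {A B : Set ℤ} {G : ℕ} (hA : ∀ G, Sp A G) (hB : Sp B G) : Sp (A ∪ B) G := by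
  obtain ⟨R, hR⟩ := hB
  obtain ⟨R', hR'⟩ := hA (R + G)
  refine ⟨R' + R, fun a => ?_⟩
  obtain ⟨b, h1, h2, h3⟩ := hR' a
  obtain ⟨c, h4, h5, h6⟩ := hR b
  refine ⟨c, by omega, by omega, ?_⟩
  rintro t (ht | ht) h7
  · exact h3 t ht (by omega)
  · exact h6 t ht h7

lemma sp_sep {A : Set ℤ} {G : ℕ} (h : ∀ s ∈ A, ∀ t ∈ A, s < t → s + G < t) : Sp A G := by
  refine ⟨G, fun a => ?_⟩
  by_cases h1 : ∃ s ∈ A, a ≤ s ∧ s < a + G
  · obtain ⟨s, hs, h2⟩ := h1
    refine ⟨s + 1, by omega, by omega, fun t ht h3 => ?_⟩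
    have := h s hs t ht (by omega)
    omega
  · exact ⟨a, le_rfl, by omega, fun t ht h2 => h1 ⟨t, ht, h2⟩⟩

lemma sp_fin {A : Set ℤ} (h : A.Finite) (G : ℕ) : Sp A G := by
  induction A, h using Set.Finite.induction_on generalizing G with
  | empty => exact sp_sep (by simp)
  | insert _ _ ih =>
    rw [← union_singleton]
    exact sp_union ih (sp_sep (by simp))

lemma sp_ray (p : ℤ[X]) (hp : 2 ≤ p.natDegree) (G : ℕ) : Sp (range fun m : ℕ => p.eval (m : ℤ)) G := by
  set D : ℤ[X] := p.comp (X + 1) - p with hD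
  have hD1 : 0 < D.natDegree := by
    by_contra h0
    have h1 := eq_C_of_natDegree_eq_zero (show D.natDegree = 0 by omega)
    have h2 : ∀ m : ℕ, p.eval (m : ℤ) = (C (D.coeff 0) * X + C (p.eval 0)).eval (m : ℤ) := by
      intro m
      induction m with
      | zero => simp
      | succ m ih =>
        have h3 := congrArg (eval (m : ℤ)) h1
        simp only [eval_add, eval_mul, eval_C, eval_X] at ih h3 ⊢
        rw [hD] at h3
        simp only [eval_sub, eval_comp, eval_add, eval_X, eval_one] at h3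
        push_cast
        linarith
    have h4 : p = C (D.coeff 0) * X + C (p.eval 0) := eq_of_infinite_eval_eq _ _
      ((infinite_range_of_injective (Nat.cast_injective (R := ℤ))).mono (by rintro _ ⟨m, rfl⟩; exact h2 m))
    have h5 := natDegree_linear_le (a := D.coeff 0) (b := p.eval 0)
    rw [← h4] at h5
    omega
  have hD2 : 0 < (D.map (Int.castRingHom ℝ)).degree := by
    rw [degree_map_eq_of_injective (RingHom.injective_int _)]
    exact natDegree_pos_iff_degree_pos.1 hD1
  have hev : ∀ m : ℕ, (D.map (Int.castRingHom ℝ)).eval (m : ℝ) =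
      ((p.eval ((m + 1 : ℕ) : ℤ) - p.eval (m : ℤ) : ℤ) : ℝ) := fun m => by
    rw [show (m : ℝ) = Int.castRingHom ℝ (m : ℤ) by simp, eval_map, eval₂_hom]
    simp [hD]
  obtain ⟨ε, hε, N, hN⟩ : ∃ ε : ℤ, (ε = 1 ∨ ε = -1) ∧ ∃ N, ∀ m : ℕ, N ≤ m →
      G < ε * (p.eval ((m + 1 : ℕ) : ℤ) - p.eval (m : ℤ)) := by
    rcases le_total 0 (D.map (Int.castRingHom ℝ)).leadingCoeff with h | h
    · obtain ⟨N, hN⟩ := eventually_atTop.1 (((tendsto_atTop_of_leadingCoeff_nonneg _ hD2 h).comp
        tendsto_natCast_atTop_atTop).eventually_gt_atTop G)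
      refine ⟨1, Or.inl rfl, N, fun m hm => ?_⟩
      have := hN m hm
      rw [Function.comp, hev] at this
      rw [one_mul]
      exact_mod_cast this
    · obtain ⟨N, hN⟩ := eventually_atTop.1 (((tendsto_atBot_of_leadingCoeff_nonpos _ hD2 h).comp
        tendsto_natCast_atTop_atTop).eventually_lt_atBot (-G))
      refine ⟨-1, Or.inr rfl, N, fun m hm => ?_⟩
      have := hN m hm
      rw [Function.comp, hev] at this
      have h2 : p.eval ((m + 1 : ℕ) : ℤ) - p.eval (m : ℤ) < -G := by exact_mod_cast this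
      linarith
  have key : ∀ a, N ≤ a → ∀ b, a < b → G < ε * (p.eval ((b : ℕ) : ℤ) - p.eval (a : ℤ)) := by
    intro a ha b hb
    induction b, hb using Nat.le_induction with
    | base => exact hN a ha
    | succ b hb ih =>
      have := hN b (by omega)
      have h0 : (0 : ℤ) ≤ G := by positivity
      linarith
  refine sp_mono (B := (fun m : ℕ => p.eval (m : ℤ)) '' Iio N ∪ (fun m : ℕ => p.eval (m : ℤ)) '' Ici N) ?_
    (sp_union (sp_fin ((finite_Iio N).image _)) (sp_sep ?_))
  · rintro _ ⟨m, rfl⟩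
    exact (lt_or_ge m N).imp (fun h => ⟨m, h, rfl⟩) fun h => ⟨m, h, rfl⟩
  · rintro _ ⟨a, ha, rfl⟩ _ ⟨b, hb, rfl⟩ h
    simp only at h ⊢
    rcases lt_trichotomy a b with h1 | rfl | h1
    · have := key a ha b h1
      rcases hε with rfl | rfl <;> omega
    · omega
    · have := key b hb a h1
      rcases hε with rfl | rfl <;> omega

lemma side' (p : ℤ[X]) (hp : 2 ≤ p.natDegree) :
    ∃ (T : (ℕ → Bool) ≃ₜ (ℕ → Bool)) (c : (ℕ → Bool) → Fin 3), Continuous c ∧ IsMinimal T ∧
      ∃ N : ℕ, ∀ z (m : ℤ), N ≤ m.natAbs → c ((T ^ p.eval m) z) = c z → z (2 * m.natAbs + 1) = true := by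
  refine side (fun m => p.eval m) (fun G => sp_mono ?_ (sp_union (sp_ray p hp)
    (sp_ray (p.comp (-X)) (by simpa [natDegree_comp] using hp) G))) fun t => ?_
  · rintro _ ⟨m, rfl⟩
    rcases Int.natAbs_eq m with h | h
    · exact Or.inl ⟨m.natAbs, by simp only; rw [← h]⟩
    · exact Or.inr ⟨m.natAbs, by simp only [eval_comp, eval_neg, eval_X]; rw [← h]⟩
  · by_contra h
    have h1 : p = C t := eq_of_infinite_eval_eq _ _ (by simpa using h)
    rw [h1, natDegree_C] at hp
    omega

/-- For integral polynomials `p, q` of degree at least two there are two minimal homeomorphisms of one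
compact metric space without `(p,q)`-jointly recurrent points. -/
theorem result (p q : ℤ[X]) (hp : 2 ≤ p.natDegree) (hq : 2 ≤ q.natDegree) :
    ∃ (X : Type) (_ : MetricSpace X) (_ : CompactSpace X) (_ : Nonempty X) (T S : X ≃ₜ X),
      IsMinimal T ∧ IsMinimal S ∧ ∀ x, ¬ ∃ n : ℕ → ℤ, Tendsto (fun i => |n i|) atTop atTop ∧
        Tendsto (fun i => (T ^ p.eval (n i)) x) atTop (𝓝 x) ∧
        Tendsto (fun i => (S ^ q.eval (n i)) x) atTop (𝓝 x) := by
  obtain ⟨T, c, hc, hT, N, hN⟩ := side' p hp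
  obtain ⟨S, d, hd, hS, M, hM⟩ := side' q hq
  let ν : (ℕ → Bool) ≃ₜ (ℕ → Bool) :=
    { toFun := fun z i => !z i
      invFun := fun z i => !z i
      left_inv := fun z => by simp
      right_inv := fun z => by simp
      continuous_toFun := continuous_pi fun i => (continuous_of_discreteTopology (f := not)).comp (continuous_apply i)
      continuous_invFun := continuous_pi fun i => (continuous_of_discreteTopology (f := not)).comp (continuous_apply i) }
  letI : MetricSpace (ℕ → Bool) := TopologicalSpace.metrizableSpaceMetric _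
  refine ⟨ℕ → Bool, inferInstance, inferInstance, inferInstance, T, (ν.symm.trans S).trans ν, hT, fun z => ?_, ?_⟩
  · simp only [H18.Rec3.conj_zpow]
    exact ν.surjective.denseRange.comp (hS _) ν.continuous
  rintro x ⟨n, h1, h2, h3⟩
  simp only [H18.Rec3.conj_zpow] at h3
  have h4 := (hc.tendsto x).comp h2
  have h5 := ((hd.comp ν.symm.continuous).tendsto x).comp h3
  rw [nhds_discrete, tendsto_pure] at h4 h5
  obtain ⟨i, h6, h7, h8⟩ := (h4.and (h5.and (h1.eventually_ge_atTop (N + M)))).exists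
  rw [← Int.natCast_natAbs] at h8
  have h9 := hN x (n i) (by omega) h6
  have h10 : (!x (2 * (n i).natAbs + 1)) = true := hM (ν.symm x) (n i) (by omega) (by simpa using h7)
  simp [h9] at h10

end Pool.Agent.Results.MP_c19a8f_an.Joint
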